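import Mathlib

/-! # Project QC (MP_81b71e_al): quasiorder and congruence lattices -/

set_option autoImplicit false

namespace Pool.Agent.L0h82.QC

universe u v w

/-- A set of finitary operations on `A`. -/
abbrev Ops (A : Type u) : Type u := Set (Σ n : ℕ, (Fin n → A) → A)

/-- `r` is preserved by all operations in `F`. -/
def Preserved {A : Type u} (F : Ops A) (r : A → A → Prop) : Prop :=
  ∀ f ∈ F, ∀ a b : Fin f.1 → A,
    (∀ i, r (a i) (b i)) → r (f.2 a) (f.2 b)

/-- The compatible quasiorders of the algebra `(A; F)`, ordered by inclusion. -/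
def Qord {A : Type u} (F : Ops A) : Type u :=
  {r : A → A → Prop // (∀ x, r x x) ∧ (∀ x y z, r x y → r y z → r x z) ∧ Preserved F r}

instance {A : Type u} (F : Ops A) : PartialOrder (Qord F) :=
  inferInstanceAs (PartialOrder {r : A → A → Prop // (∀ x, r x x) ∧
    (∀ x y z, r x y → r y z → r x z) ∧ Preserved F r})

/-- The congruences: the symmetric members of `Qord F`. -/
def ConSet {A : Type u} (F : Ops A) : Set (Qord F) := {r | ∀ x y, r.1 x y → r.1 y x}

/-- The pair `(L, M)` is isomorphic to `(Qord, Con)` of some algebra on a nonempty set. -/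
def Realised (L : Type v) [PartialOrder L] (M : Set L) : Prop :=
  ∃ (A : Type v) (_ : Nonempty A) (F : Ops A) (φ : L ≃o Qord F), φ '' M = ConSet F

/-- `M` is the fixed point set of an involutive automorphism. -/
def FixedBy (L : Type v) [PartialOrder L] (M : Set L) : Prop :=
  ∃ σ : L ≃o L, (∀ x, σ (σ x) = x) ∧ M = {x | σ x = x}

/-- N1: necessary condition. -/
def S_NEC : Prop := ∀ (L : Type v) [PartialOrder L] (M : Set L), Realised L M → FixedBy L M

/-- N2: for `K × K` with the diagonal, `K` is distributive. -/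
def S_DIA : Prop := ∀ (K : Type v) [CompleteLattice K], Realised (K × K) {p | p.1 = p.2} →
  ∀ s a b : K, s ≤ a ⊔ b → s ≤ (s ⊓ a) ⊔ (s ⊓ b)

/-- N3: the lattices of all lower sets of a partial order. -/
def S_LOW : Prop := ∀ (P : Type v) [PartialOrder P] (τ : P ≃o P), (∀ p, τ (τ p) = p) →
  Realised (LowerSet P) {I | ∀ p, p ∈ I ↔ τ p ∈ I}

/-- N4: every involutive automorphism of the lattice of lower sets comes from one of `P`. -/
def S_AUT : Prop := ∀ (P : Type v) [PartialOrder P] (σ : LowerSet P ≃o LowerSet P),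
  (∀ x, σ (σ x) = x) → ∃ τ : P ≃o P, (∀ p, τ (τ p) = p) ∧
    ∀ I : LowerSet P, σ I = I ↔ ∀ p, p ∈ I ↔ τ p ∈ I

/-- N5: a finite distributive lattice is a lattice of lower sets. -/
def S_FIN : Prop := ∀ (K : Type v) [DistribLattice K] [BoundedOrder K] [Finite K],
  ∃ (P : Type v) (_ : PartialOrder P), Nonempty (K ≃o LowerSet P)

end Pool.Agent.L0h82.QC
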